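import Pool.Agent.helper31.RLS.Spec

/-! Row rls:GEN (MP_ad8ced). -/

set_option autoImplicit false

namespace Pool.Agent.RLS

open Finset

theorem GEN (h1 : CP_stmt) (h2 : MG_stmt) (h3 : GI_stmt) : GEN_stmt := by
  intro u A F f hu hDat eps heps
  have hu0 : (0 : ℝ) < u := by linarith
  have hB : 0 ≤ Real.log (2 * u) := Real.log_nonneg (by linarith)
  obtain ⟨C, hC, hCP⟩ := h1 u A F f hu hDat (Real.log (2 * u)) hB
  obtain ⟨M, hM, hMG⟩ := h2
  refine ⟨max 2 (Real.exp (max (max 1 (2 * u * M)) (u * (C * M) / eps))), le_max_left _ _, ?_⟩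
  intro w z D hw hwz hD
  have hw2 : 2 ≤ w := (le_max_left _ _).trans hw
  have hw0 : 0 < w := by linarith
  have hz0 : 0 < z := by linarith
  have hlw : max (max 1 (2 * u * M)) (u * (C * M) / eps) ≤ Real.log w := by
    rw [Real.le_log_iff_exp_le hw0]
    exact (le_max_right _ _).trans hw
  have hlw1 : 1 ≤ Real.log w := ((le_max_left _ _).trans (le_max_left _ _)).trans hlw
  have hlw2 : 2 * u * M ≤ Real.log w := ((le_max_right _ _).trans (le_max_left _ _)).trans hlw
  have hlw3 : u * (C * M) / eps ≤ Real.log w := (le_max_right _ _).trans hlw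
  have hom : 0 < Real.log w := by linarith
  have homy : Real.log w ≤ Real.log z := Real.log_le_log hw0 hwz
  have hy : 0 < Real.log z := by linarith
  have het : 0 ≤ M / Real.log w := by positivity
  have hgood := hMG w z hw2 hwz
  -- the main facts for `y ≤ L`
  have key : ∀ _ : z ≤ D, Real.log z ≤ Real.log D ∧ Real.log D ≤ u * Real.log w ∧
      ∑ p ∈ PP w z, 1 / (p : ℝ) ≤ Real.log (2 * u) ∧
      C * (M / Real.log w) ≤ Real.log w / Real.log z * eps := by
    intro hzD
    have hD0 : 0 < D := by linarith
    have hyL : Real.log z ≤ Real.log D := Real.log_le_log hz0 hzD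
    have hL : Real.log D ≤ u * Real.log w := by
      have := Real.log_le_log hD0 hD
      rwa [Real.log_rpow hw0] at this
    have hyu : Real.log z ≤ u * Real.log w := hyL.trans hL
    refine ⟨hyL, hL, ?_, ?_⟩
    · have hs := (h3 _ _ _ _ _ hom homy hgood).2.2.1
      have h4 : M / Real.log w ≤ Real.log w / (2 * Real.log z) := by
        rw [div_le_div_iff₀ hom (by positivity)]
        have h5 : M * (2 * Real.log z) ≤ M * (2 * (u * Real.log w)) := by
          apply mul_le_mul_of_nonneg_left _ hM.le
          linarith
        have h6 : 2 * u * M * Real.log w ≤ Real.log w * Real.log w :=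
          mul_le_mul_of_nonneg_right hlw2 hom.le
        nlinarith
      refine (hs h4).trans ?_
      apply Real.log_le_log
      · positivity
      · rw [div_le_iff₀ hom]
        linarith
    · have h7 : 1 / u ≤ Real.log w / Real.log z := by
        rw [div_le_div_iff₀ hu0 hy]
        linarith
      have h8 : C * (M / Real.log w) ≤ 1 / u * eps := by
        rw [← mul_div_assoc, one_div, inv_mul_eq_div, div_le_div_iff₀ hom hu0]
        rw [div_le_iff₀ heps] at hlw3
        linarith
      exact h8.trans (mul_le_mul_of_nonneg_right h7 heps.le)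
  constructor
  · intro hzD
    obtain ⟨hyL, hL, hg, he⟩ := key hzD
    have h9 := (hCP _ _ _ _ _ _ hom het homy hL hgood hg).1 hyL
    refine h9.trans ?_
    rw [mul_add]
    linarith
  · intro hzD
    have hz1 : 1 ≤ z := by linarith
    have hzD' : z ≤ D := by nlinarith
    obtain ⟨hyL, hL, hg, he⟩ := key hzD'
    have h2y : 2 * Real.log z ≤ Real.log D := by
      have := Real.log_le_log (by positivity) hzD
      rw [Real.log_pow] at this
      exact_mod_cast this
    have h9 := (hCP _ _ _ _ _ _ hom het homy hL hgood hg).2 h2y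
    refine le_trans ?_ h9
    rw [mul_sub]
    linarith

end Pool.Agent.RLS
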